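import Pool.Agent.H58.JU.Targets

/-!
# The inequality of Bessel for three orthonormal vectors
-/

set_option autoImplicit false

namespace Pool.Agent.H36.JU

open Pool.Agent.H58.JU Pool.Agent.H59 Pool.Agent.H48.FR Pool.Agent.H58.FL
open scoped RealInnerProductSpace Quaternion

theorem pf_BES (hBE2 : T_BE2) : T_BES := by
  intro 𝕜 _ _ _ _ n e₁ e₂ e₃ u h1 h2 h3 h12 h13 h23
  obtain ⟨v, hv, hv1, hv2, hn⟩ := hBE2 𝕜 n e₁ e₂ h1 h2 h12 u
  have h4 : hp u e₃ = hp v e₃ := by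
    conv_lhs => rw [hv]
    rw [hp_add_left, hp_add_left, hp_smul_left, hp_smul_left, h13, h23, mul_zero, mul_zero,
      add_zero, zero_add]
  have h5 : ‖hp u e₃‖ ≤ nrm v := by
    rw [h4]
    have := norm_hp_le v e₃
    rwa [h3, mul_one] at this
  have h6 : ‖hp u e₃‖ ^ 2 ≤ nrm v ^ 2 := pow_le_pow_left₀ (norm_nonneg _) h5 2
  rw [hn]
  linarith

end Pool.Agent.H36.JU
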