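import Pool.Agent.H58.JU.Targets

/-!
# Transport of a line by an isometry
-/

set_option autoImplicit false

namespace Pool.Agent.H36.JU

open Pool.Agent.H58.JU Pool.Agent.H59 Pool.Agent.H48.FR Pool.Agent.H58.FL
open scoped RealInnerProductSpace Quaternion

theorem pf_LTR : T_LTR := by
  intro M W _ _ _ φ hφ hs c c' ⟨L⟩
  have ho : ∀ x y : M, ov (φ x) (φ y) = ov x y := fun x y => by
    unfold ov
    rw [hφ]
  have hi : Function.Injective φ := by
    intro x y h
    have h1 := hφ x y
    rw [h, dist_self] at h1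
    exact dist_eq_zero.1 h1.symm
  choose g hg using hs
  refine ⟨{
    p := fun x => L.p (φ x)
    w := fun x => L.w (φ x)
    K := fun x y => L.K (φ x) (φ y)
    p_mem := fun x => L.p_mem _
    norm_w := fun x => L.norm_w _
    K_comm := fun x y => L.K_comm _ _
    K_pos := fun N t x => L.K_pos N t fun i => φ (x i)
    dec := fun x y => by rw [← ho]; exact L.dec _ _
    p_left := L.p_left
    p_right := L.p_right
    sur := ?_
    orth := ?_
    nor := ?_ }⟩
  · intro v hv
    obtain ⟨y, hy1, hy2⟩ := L.sur v hv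
    exact ⟨g y, by rw [hg]; exact hy1, by rw [hg]; exact hy2⟩
  · intro x hx u
    rw [← ho]
    exact L.orth (φ x) hx (φ u)
  · intro x hx0 hx1
    obtain ⟨y, z, h, θ, γ, h1, h2, h3, h4, h5⟩ := L.nor (φ x) hx0 hx1
    refine ⟨g y, g z, fun u => h (φ u), θ, fun t => g (γ t), ?_, ?_, h3, ?_, ?_⟩
    · rw [hg]
      exact h1
    · show g (γ θ) = x
      rw [h2]
      exact hi (hg _)
    · intro u
      rw [← ho, hg]
      exact h4 (φ u)
    · intro t u
      rw [← ho, ← ho (g y), ← ho (g z), hg, hg, hg]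
      exact h5 t (φ u)

end Pool.Agent.H36.JU
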