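import Pool.Agent.H58.JU.Targets

/-!
# The sum of the squares of the inner products of unit vectors
-/

set_option autoImplicit false

namespace Pool.Agent.H36.JU

open Pool.Agent.H58.JU Pool.Agent.H59 Pool.Agent.H48.FR Pool.Agent.H58.FL
open scoped RealInnerProductSpace Quaternion

/-- the double sum of products as a sum of squares -/
theorem sum_sq_aux (N d : ℕ) (b : Fin N → ℝ) (a : Fin d → Fin N → ℝ) :
    ∑ i, ∑ j, b i * b j * (∑ k, a k i * a k j) ^ 2 =
      ∑ k, ∑ l, (∑ i, b i * (a k i * a l i)) ^ 2 := by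
  have h1 : ∀ i j, b i * b j * (∑ k, a k i * a k j) ^ 2 =
      ∑ k, ∑ l, (b i * (a k i * a l i)) * (b j * (a k j * a l j)) := by
    intro i j
    rw [sq, Finset.sum_mul_sum, Finset.mul_sum]
    refine Finset.sum_congr rfl fun k _ => ?_
    rw [Finset.mul_sum]
    refine Finset.sum_congr rfl fun l _ => ?_
    ring
  have h2 : ∀ k l, (∑ i, b i * (a k i * a l i)) ^ 2 =
      ∑ i, ∑ j, (b i * (a k i * a l i)) * (b j * (a k j * a l j)) := by
    intro k l
    rw [sq, Finset.sum_mul_sum]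
  rw [Finset.sum_congr rfl fun i _ => Finset.sum_congr rfl fun j _ => h1 i j,
    Finset.sum_congr rfl fun k _ => Finset.sum_congr rfl fun l _ => h2 k l]
  have h3 : ∀ i, ∑ j, ∑ k, ∑ l, (b i * (a k i * a l i)) * (b j * (a k j * a l j)) =
      ∑ k, ∑ l, ∑ j, (b i * (a k i * a l i)) * (b j * (a k j * a l j)) := by
    intro i
    rw [Finset.sum_comm]
    refine Finset.sum_congr rfl fun k _ => ?_
    rw [Finset.sum_comm]
  rw [Finset.sum_congr rfl fun i _ => h3 i, Finset.sum_comm]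
  refine Finset.sum_congr rfl fun k _ => ?_
  rw [Finset.sum_comm]

theorem pf_WIJ : T_WIJ := by
  intro W _ _ _ N b w hw
  set e := stdOrthonormalBasis ℝ W with he
  have h1 : ∀ i j, ⟪w i, w j⟫ = ∑ k, ⟪e k, w i⟫ * ⟪e k, w j⟫ := by
    intro i j
    rw [← e.sum_inner_mul_inner (w i) (w j)]
    refine Finset.sum_congr rfl fun k _ => ?_
    rw [real_inner_comm]
  have h2 : ∑ i, ∑ j, b i * b j * ⟪w i, w j⟫ ^ 2 =
      ∑ k, ∑ l, (∑ i, b i * (⟪e k, w i⟫ * ⟪e l, w i⟫)) ^ 2 := by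
    rw [← sum_sq_aux N (Module.finrank ℝ W) b fun k i => ⟪e k, w i⟫]
    refine Finset.sum_congr rfl fun i _ => Finset.sum_congr rfl fun j _ => ?_
    rw [h1 i j]
  have h3 : ∑ k, (∑ i, b i * (⟪e k, w i⟫ * ⟪e k, w i⟫)) = ∑ i, b i := by
    rw [Finset.sum_comm]
    refine Finset.sum_congr rfl fun i _ => ?_
    rw [← Finset.mul_sum, ← h1 i i, real_inner_self_eq_norm_sq, hw i]
    ring
  have h4 : ∑ k, (∑ i, b i * (⟪e k, w i⟫ * ⟪e k, w i⟫)) ^ 2 ≤
      ∑ k, ∑ l, (∑ i, b i * (⟪e k, w i⟫ * ⟪e l, w i⟫)) ^ 2 := by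
    refine Finset.sum_le_sum fun k _ => ?_
    exact Finset.single_le_sum (f := fun l => (∑ i, b i * (⟪e k, w i⟫ * ⟪e l, w i⟫)) ^ 2)
      (fun l _ => sq_nonneg _) (Finset.mem_univ k)
  have h5 := sq_sum_le_card_mul_sum_sq (s := (Finset.univ : Finset (Fin (Module.finrank ℝ W))))
    (f := fun k => ∑ i, b i * (⟪e k, w i⟫ * ⟪e k, w i⟫))
  rw [h3, Finset.card_univ, Fintype.card_fin] at h5
  rw [h2]
  exact h5.trans (mul_le_mul_of_nonneg_left h4 (Nat.cast_nonneg _))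

end Pool.Agent.H36.JU
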